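import Mathlib

set_option autoImplicit false
open Set Filter Topology

namespace Pool.Agent.KS6_18.Stab

/-- The contractions of `X`. -/
abbrev Contr (X : Type) [NormedAddCommGroup X] [NormedSpace ℂ X] : Type :=
  {T : X →L[ℂ] X // ‖T‖ ≤ 1}

/-- The weak operator topology on the set of contractions of `X`. -/
@[reducible] noncomputable def wot (X : Type) [NormedAddCommGroup X] [NormedSpace ℂ X] :
    TopologicalSpace (Contr X) :=
  TopologicalSpace.induced (fun (T : Contr X) (p : X × (X →L[ℂ] ℂ)) => p.2 (T.1 p.1))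
    (Pi.topologicalSpace : TopologicalSpace (X × (X →L[ℂ] ℂ) → ℂ))

section general
variable {X : Type} [NormedAddCommGroup X] [NormedSpace ℂ X]

noncomputable def Phi (T : Contr X) (p : X × (X →L[ℂ] ℂ)) : ℂ := p.2 (T.1 p.1)

lemma range_Phi (hr : Function.Surjective (NormedSpace.inclusionInDoubleDual ℂ X)) :
    range (Phi (X := X)) = {B | (∀ x y f, B (x + y, f) = B (x, f) + B (y, f)) ∧
      (∀ (c : ℂ) x f, B (c • x, f) = c * B (x, f)) ∧ (∀ x f g, B (x, f + g) = B (x, f) + B (x, g)) ∧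
      (∀ (c : ℂ) x f, B (x, c • f) = c * B (x, f)) ∧ ∀ x f, ‖B (x, f)‖ ≤ ‖x‖ * ‖f‖} := by
  ext B
  constructor
  · rintro ⟨T, rfl⟩
    refine ⟨fun x y f => by simp [Phi], fun c x f => by simp [Phi], fun x f g => by simp [Phi],
      fun c x f => by simp [Phi], fun x f => ?_⟩
    calc ‖f (T.1 x)‖ ≤ ‖f‖ * ‖T.1 x‖ := f.le_opNorm _
      _ ≤ ‖f‖ * (1 * ‖x‖) := by
        gcongr; exact (T.1.le_opNorm x).trans (by gcongr; exact T.2)
      _ = ‖x‖ * ‖f‖ := by ring
  · rintro ⟨h1, h2, h3, h4, h5⟩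
    have ex : ∀ x : X, ∃ y : X, ∀ f : X →L[ℂ] ℂ, f y = B (x, f) := by
      intro x
      let L : (X →L[ℂ] ℂ) →ₗ[ℂ] ℂ := ⟨⟨fun f => B (x, f), h3 x⟩, fun c f => h4 c x f⟩
      obtain ⟨y, hy⟩ := hr (L.mkContinuous ‖x‖ (h5 x))
      exact ⟨y, fun f => congrArg (fun Ψ : (X →L[ℂ] ℂ) →L[ℂ] ℂ => Ψ f) hy⟩
    choose t ht using ex
    let L : X →ₗ[ℂ] X := ⟨⟨t, fun x y => (SeparatingDual.eq_iff_forall_dual_eq (R := ℂ)).2
        fun f => by rw [map_add, ht, ht, ht, h1]⟩,
      fun c x => (SeparatingDual.eq_iff_forall_dual_eq (R := ℂ)).2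
        fun f => by simp only [map_smul, ht, h2, RingHom.id_apply, smul_eq_mul]⟩
    have hL : ∀ x, ‖L x‖ ≤ 1 * ‖x‖ := fun x =>
      NormedSpace.norm_le_dual_bound ℂ (t x) (by positivity) fun f => by
        rw [ht, one_mul]; exact h5 x f
    refine ⟨⟨L.mkContinuous 1 hL, L.mkContinuous_norm_le zero_le_one hL⟩, ?_⟩
    funext p
    exact ht p.1 p.2

/-- For reflexive `X` the contractions form a compact, hence a Baire, space. -/
lemma baire (hr : Function.Surjective (NormedSpace.inclusionInDoubleDual ℂ X)) :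
    @BaireSpace (Contr X) (wot X) := by
  let : TopologicalSpace (Contr X) := wot X
  have hi : IsInducing (Phi (X := X)) := ⟨rfl⟩
  have hc : IsClosed (range (Phi (X := X))) := by
    rw [range_Phi hr]
    simp only [ofPred_and, ofPred_forall]
    refine IsClosed.inter ?_ (IsClosed.inter ?_ (IsClosed.inter ?_ (IsClosed.inter ?_ ?_)))
    · exact isClosed_iInter fun _ => isClosed_iInter fun _ => isClosed_iInter fun _ =>
        isClosed_eq (by fun_prop) (by fun_prop)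
    · exact isClosed_iInter fun _ => isClosed_iInter fun _ => isClosed_iInter fun _ =>
        isClosed_eq (by fun_prop) (by fun_prop)
    · exact isClosed_iInter fun _ => isClosed_iInter fun _ => isClosed_iInter fun _ =>
        isClosed_eq (by fun_prop) (by fun_prop)
    · exact isClosed_iInter fun _ => isClosed_iInter fun _ => isClosed_iInter fun _ =>
        isClosed_eq (by fun_prop) (by fun_prop)
    · exact isClosed_iInter fun _ => isClosed_iInter fun _ =>
        isClosed_le (by fun_prop) (by fun_prop)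
  have hk : IsCompact (range (Phi (X := X))) := by
    refine (isCompact_univ_pi fun p : X × (X →L[ℂ] ℂ) =>
      isCompact_closedBall (0:ℂ) (‖p.1‖ * ‖p.2‖)).of_isClosed_subset hc ?_
    rw [range_Phi hr]
    rintro B ⟨-, -, -, -, h⟩ p -
    simpa using h p.1 p.2
  have : CompactSpace (Contr X) :=
    ⟨hi.isCompact_iff.2 (by rwa [image_univ])⟩
  have : R1Space (Contr X) := hi.r1Space
  infer_instance

/-- Reflexivity passes to linearly homeomorphic spaces. -/
lemma refl_equiv {E : Type} [NormedAddCommGroup E] [NormedSpace ℂ E] (e : E ≃L[ℂ] X)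
    (h : Function.Surjective (NormedSpace.inclusionInDoubleDual ℂ E)) :
    Function.Surjective (NormedSpace.inclusionInDoubleDual ℂ X) := by
  intro Ψ
  let A : (E →L[ℂ] ℂ) →L[ℂ] (X →L[ℂ] ℂ) :=
    (ContinuousLinearMap.compL ℂ X E ℂ).flip (e.symm : X →L[ℂ] E)
  obtain ⟨x, hx⟩ := h (Ψ.comp A)
  refine ⟨e x, ?_⟩
  ext g
  have h1 := congrArg (fun Φ : (E →L[ℂ] ℂ) →L[ℂ] ℂ => Φ (g.comp (e : E →L[ℂ] X))) hx
  have h2 : A (g.comp (e : E →L[ℂ] X)) = g := by
    ext y; simp [A]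
  simp only [ContinuousLinearMap.comp_apply, h2] at h1
  simpa using h1

end general

section main
variable {Z : Type} [NormedAddCommGroup Z] [NormedSpace ℂ Z]

/-- the estimate -/
theorem cube {e0 : Z} {φ0 : Z →L[ℂ] ℂ} (hφ0 : ‖φ0‖ ≤ 1) {η δ : ℝ} (hη : 0 < η)
    (hse : ∀ z : Z, ‖z‖ ≤ 1 → 1 - δ < (φ0 z).re → ‖z - e0‖ < η)
    (T : (ℂ × Z) →L[ℂ] (ℂ × Z)) (hT : ‖T‖ ≤ 1) (ha : ‖(T (1, 0)).1‖ < η)
    (hv : 1 - δ / 2 < (φ0 (T (1, 0)).2).re) (he : ‖(T (0, e0)).1‖ < η) :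
    ‖T ^ 3‖ ≤ 5 * η := by
  have hT' : ∀ x, ‖T x‖ ≤ ‖x‖ := fun x =>
    (T.le_opNorm _).trans (by simpa using mul_le_mul_of_nonneg_right hT (norm_nonneg _))
  have hre : ∀ z : Z, ‖z‖ ≤ 1 → (φ0 z).re ≤ 1 := fun z hz =>
    (Complex.re_le_norm _).trans ((φ0.le_opNorm z).trans
      (mul_le_one₀ hφ0 (norm_nonneg _) hz))
  set a : ℂ := (T (1, 0)).1 with hadef
  set v : Z := (T (1, 0)).2 with hvdef
  have hT1 : T (1, 0) = (a, v) := rfl
  have hdec : ∀ (α : ℂ) (h : Z), T (α, h) = (α * a + (T (0, h)).1, α • v + (T (0, h)).2) := by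
    intro α h
    have : ((α, h) : ℂ × Z) = α • ((1, 0) : ℂ × Z) + (0, h) := by simp
    rw [this, map_add, map_smul, hT1]
    rfl
  have hv1 : ‖v‖ ≤ 1 := by
    have h1 := hT' (1, 0)
    rw [hT1] at h1
    have h2 := norm_snd_le ((a, v) : ℂ × Z)
    have h3 : ‖((1, 0) : ℂ × Z)‖ = 1 := by simp [Prod.norm_def]
    exact h2.trans (h1.trans h3.le)
  have hδ : 0 < δ := by
    have := hre v hv1
    linarith
  have hve : ‖v - e0‖ < η := hse v hv1 (by linarith)
  have hS : ∀ h : Z, ‖h‖ ≤ 1 → ‖(T (0, h)).2‖ ≤ η := by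
    intro h hh
    set w : Z := (T (0, h)).2 with hw
    have hp : ‖v + w‖ ≤ 1 := by
      have h1 := hT' (1, h)
      rw [hdec] at h1
      have h2 := norm_snd_le ((1 * a + (T (0, h)).1, (1 : ℂ) • v + (T (0, h)).2) : ℂ × Z)
      have h3 : ‖((1, h) : ℂ × Z)‖ ≤ 1 := by simp [Prod.norm_def, hh]
      have h4 := h2.trans (h1.trans h3)
      simpa using h4
    have hm : ‖v - w‖ ≤ 1 := by
      have h1 := hT' (1, -h)
      rw [hdec] at h1
      have h2 := norm_snd_le ((1 * a + (T (0, -h)).1, (1 : ℂ) • v + (T (0, -h)).2) : ℂ × Z)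
      have h3 : ‖((1, -h) : ℂ × Z)‖ ≤ 1 := by simp [Prod.norm_def, hh]
      have h4 := h2.trans (h1.trans h3)
      have h5 : (T (0, -h)).2 = - w := by
        have : ((0, -h) : ℂ × Z) = -(0, h) := by simp
        rw [this, map_neg]; rfl
      rw [h5] at h4
      simpa [sub_eq_add_neg] using h4
    have h1 := hre _ hp
    have h2 := hre _ hm
    have h3 : (φ0 (v + w)).re + (φ0 (v - w)).re = 2 * (φ0 v).re := by
      rw [map_add, map_sub, Complex.add_re, Complex.sub_re]; ring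
    have h4 : ‖v + w - e0‖ < η := hse _ hp (by linarith)
    have h5 : ‖v - w - e0‖ < η := hse _ hm (by linarith)
    have h6 : (2 : ℂ) • w = (v + w - e0) - (v - w - e0) := by
      rw [two_smul]; abel
    have h7 : 2 * ‖w‖ = ‖(2 : ℂ) • w‖ := by rw [norm_smul]; simp
    have h8 := norm_sub_le (v + w - e0) (v - w - e0)
    rw [← h6, ← h7] at h8
    linarith
  have hφn : ∀ h : Z, ‖(T (0, h)).1‖ ≤ ‖h‖ := by
    intro h
    have h1 := hT' (0, h)
    have h2 := norm_fst_le (T (0, h))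
    have h3 : ‖((0, h) : ℂ × Z)‖ = ‖h‖ := by simp [Prod.norm_def]
    exact h2.trans (h1.trans h3.le)
  have hφadd : ∀ h k : Z, (T (0, h + k)).1 = (T (0, h)).1 + (T (0, k)).1 := by
    intro h k
    have : ((0, h + k) : ℂ × Z) = (0, h) + (0, k) := by simp
    rw [this, map_add]; rfl
  have hφsmul : ∀ (c : ℂ) (h : Z), (T (0, c • h)).1 = c * (T (0, h)).1 := by
    intro c h
    have : ((0, c • h) : ℂ × Z) = c • (0, h) := by simp
    rw [this, map_smul]; rfl
  have hφv : ‖(T (0, v)).1‖ ≤ 2 * η := by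
    have : v = e0 + (v - e0) := by abel
    rw [this, hφadd]
    have h1 := hφn (v - e0)
    have h2 := norm_add_le (T (0, e0)).1 (T (0, v - e0)).1
    linarith
  -- the second iterate has small first coordinate
  have hfst : ∀ x : ℂ × Z, ‖x‖ ≤ 1 → ‖(T (T x)).1‖ ≤ 4 * η := by
    rintro ⟨α, h⟩ hx
    have hα : ‖α‖ ≤ 1 := (norm_fst_le ((α, h) : ℂ × Z)).trans hx
    have hh : ‖h‖ ≤ 1 := (norm_snd_le ((α, h) : ℂ × Z)).trans hx
    have hTx : ‖T (α, h)‖ ≤ 1 := (hT' _).trans hx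
    have h1 : ‖(T (α, h)).1‖ ≤ 1 := (norm_fst_le _).trans hTx
    have h2 : T (T (α, h)) = T ((T (α, h)).1, (T (α, h)).2) := rfl
    have h3 : (T (α, h)).2 = α • v + (T (0, h)).2 := by rw [hdec]
    rw [h2, hdec, h3, hφadd, hφsmul]
    have e1 : ‖(T (α, h)).1 * a‖ ≤ η := by
      rw [norm_mul]
      calc ‖(T (α, h)).1‖ * ‖a‖ ≤ 1 * η := by gcongr
        _ = η := one_mul _
    have e2 : ‖α * (T (0, v)).1‖ ≤ 2 * η := by
      rw [norm_mul]
      calc ‖α‖ * ‖(T (0, v)).1‖ ≤ 1 * (2 * η) := by gcongr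
        _ = 2 * η := one_mul _
    have e3 : ‖(T (0, (T (0, h)).2)).1‖ ≤ η := (hφn _).trans (hS h hh)
    have e4 := norm_add_le ((T (α, h)).1 * a) (α * (T (0, v)).1 + (T (0, (T (0, h)).2)).1)
    have e5 := norm_add_le (α * (T (0, v)).1) (T (0, (T (0, h)).2)).1
    show ‖(T (α, h)).1 * a + (α * (T (0, v)).1 + (T (0, (T (0, h)).2)).1)‖ ≤ 4 * η
    linarith
  have hcube : ∀ x : ℂ × Z, ‖x‖ ≤ 1 → ‖(T ^ 3) x‖ ≤ 5 * η := by
    intro x hx
    have e0' : (T ^ 3) x = T (T (T x)) := rfl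
    rw [e0', Prod.norm_def]
    refine max_le ?_ ?_
    · have := hfst (T x) ((hT' _).trans hx)
      linarith
    · have h1 := hfst x hx
      have h2 : T (T (T x)) = T ((T (T x)).1, (T (T x)).2) := rfl
      rw [h2, hdec]
      have h3 : ‖(T (T x)).2‖ ≤ 1 :=
        (norm_snd_le _).trans ((hT' _).trans ((hT' _).trans hx))
      have h4 := hS _ h3
      have h5 : ‖(T (T x)).1 • v‖ ≤ 4 * η := by
        rw [norm_smul]
        calc ‖(T (T x)).1‖ * ‖v‖ ≤ (4 * η) * 1 := by gcongr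
          _ = 4 * η := mul_one _
      have h6 := norm_add_le ((T (T x)).1 • v) (T (0, (T (T x)).2)).2
      show ‖(T (T x)).1 • v + (T (0, (T (T x)).2)).2‖ ≤ 5 * η
      linarith
  exact ContinuousLinearMap.opNorm_le_of_unit_norm (by positivity) fun x hx => hcube x hx.le

end main

end Pool.Agent.KS6_18.Stab
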