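import Pool.Agent.KS6_18.Stab.Open

set_option autoImplicit false
open Set Filter Topology

namespace Pool.Agent.KS6_18.Stab

/-- Split off a line. -/
theorem split (E : Type) [NormedAddCommGroup E] [NormedSpace ℂ E]
    (hinf : ¬ FiniteDimensional ℂ E) : ∃ f : E →L[ℂ] ℂ,
      Nonempty (E ≃L[ℂ] (ℂ × (LinearMap.ker (f : E →ₗ[ℂ] ℂ)))) ∧
      ¬ FiniteDimensional ℂ (LinearMap.ker (f : E →ₗ[ℂ] ℂ)) := by
  have : Nontrivial E := by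
    by_contra h
    rw [not_nontrivial_iff_subsingleton] at h
    exact hinf inferInstance
  obtain ⟨x, hx⟩ := exists_ne (0 : E)
  obtain ⟨f, hf⟩ := SeparatingDual.exists_eq_one (R := ℂ) hx
  let P : E →L[ℂ] E := ContinuousLinearMap.id ℂ E - f.smulRight x
  have hP : ∀ y, P y ∈ LinearMap.ker (f : E →ₗ[ℂ] ℂ) := by
    intro y
    simp [P, hf]
  let F : E →L[ℂ] (ℂ × (LinearMap.ker (f : E →ₗ[ℂ] ℂ))) := f.prod (P.codRestrict _ hP)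
  let G : (ℂ × (LinearMap.ker (f : E →ₗ[ℂ] ℂ))) →L[ℂ] E :=
    (ContinuousLinearMap.fst ℂ ℂ _).smulRight x +
      (Submodule.subtypeL _).comp (ContinuousLinearMap.snd ℂ ℂ _)
  have e : E ≃L[ℂ] (ℂ × (LinearMap.ker (f : E →ₗ[ℂ] ℂ))) := by
    refine ContinuousLinearEquiv.equivOfInverse F G ?_ ?_
    · intro y
      simp [F, G, P]
    · rintro ⟨c, ⟨z, hz⟩⟩
      have hz' : f z = 0 := hz
      ext
      · simp [F, G, hf, hz']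
      · simp [F, G, P, hf, hz']
  refine ⟨f, ⟨e⟩, fun h => hinf ?_⟩
  exact Module.Finite.equiv e.symm.toLinearEquiv

/-- The space `ℂ ⊕_∞ (ℂ ⊕_1 Y)`. -/
abbrev Sp (Y : Type) [NormedAddCommGroup Y] [NormedSpace ℂ Y] : Type := ℂ × WithLp 1 (ℂ × Y)

theorem exists_equiv (E : Type) [NormedAddCommGroup E] [NormedSpace ℂ E] [CompleteSpace E]
    (hinf : ¬ FiniteDimensional ℂ E) : ∃ (Y : Type) (_ : NormedAddCommGroup Y)
      (_ : NormedSpace ℂ Y) (_ : CompleteSpace Y), Nonempty (E ≃L[ℂ] Sp Y) := by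
  obtain ⟨f, ⟨e⟩, h⟩ := split E hinf
  have c1 : CompleteSpace (LinearMap.ker (f : E →ₗ[ℂ] ℂ)) := f.isClosed_ker.completeSpace_coe
  obtain ⟨g, ⟨e'⟩, h'⟩ := split (LinearMap.ker (f : E →ₗ[ℂ] ℂ)) h
  have c2 : CompleteSpace (LinearMap.ker (g : (LinearMap.ker (f : E →ₗ[ℂ] ℂ)) →ₗ[ℂ] ℂ)) :=
    g.isClosed_ker.completeSpace_coe
  refine ⟨(LinearMap.ker (g : (LinearMap.ker (f : E →ₗ[ℂ] ℂ)) →ₗ[ℂ] ℂ)), inferInstance,
    inferInstance, c2, ⟨?_⟩⟩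
  exact e.trans ((ContinuousLinearEquiv.refl ℂ ℂ).prodCongr
    (e'.trans (WithLp.prodContinuousLinearEquiv 1 ℂ ℂ _).symm))

variable {Y : Type} [NormedAddCommGroup Y] [NormedSpace ℂ Y]

noncomputable def e0 : WithLp 1 (ℂ × Y) := WithLp.toLp 1 (1, 0)
noncomputable def φ0 : WithLp 1 (ℂ × Y) →L[ℂ] ℂ := WithLp.fstL 1 ℂ ℂ Y

theorem norm_W (z : WithLp 1 (ℂ × Y)) : ‖z‖ = ‖φ0 z‖ + ‖WithLp.sndL 1 ℂ ℂ Y z‖ :=
  WithLp.prod_norm_eq_of_L1 z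

theorem norm_φ0 : ‖(φ0 : WithLp 1 (ℂ × Y) →L[ℂ] ℂ)‖ ≤ 1 := by
  refine ContinuousLinearMap.opNorm_le_bound _ zero_le_one fun z => ?_
  rw [one_mul, norm_W]
  linarith [norm_nonneg (WithLp.sndL 1 ℂ ℂ Y z)]

theorem φ0_e0 : φ0 (e0 : WithLp 1 (ℂ × Y)) = 1 := rfl

theorem norm_e0 : ‖(e0 : WithLp 1 (ℂ × Y))‖ = 1 := by
  rw [norm_W, φ0_e0]
  have : WithLp.sndL 1 ℂ ℂ Y (e0 : WithLp 1 (ℂ × Y)) = 0 := rfl
  rw [this]; simp

/-- `e0` is a strongly exposed point of the unit ball. -/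
theorem exposed {η : ℝ} (hη : 0 < η) : ∃ δ > 0, ∀ z : WithLp 1 (ℂ × Y), ‖z‖ ≤ 1 →
    1 - δ < (φ0 z).re → ‖z - e0‖ < η := by
  refine ⟨min 1 (η ^ 2 / 16), by positivity, fun z hz h => ?_⟩
  set δ := min 1 (η ^ 2 / 16) with hδ
  have hδ0 : 0 < δ := by positivity
  have hδ1 : δ ≤ 1 := min_le_left _ _
  have hδ2 : δ ≤ η ^ 2 / 16 := min_le_right _ _
  have h1 : ‖z - e0‖ = ‖φ0 z - 1‖ + ‖WithLp.sndL 1 ℂ ℂ Y z‖ := by
    rw [norm_W, map_sub, φ0_e0, map_sub]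
    have : WithLp.sndL 1 ℂ ℂ Y (e0 : WithLp 1 (ℂ × Y)) = 0 := rfl
    rw [this, sub_zero]
  have h2 := norm_W z
  have h3 : (φ0 z).re ≤ ‖φ0 z‖ := Complex.re_le_norm _
  have h4 : ‖WithLp.sndL 1 ℂ ℂ Y z‖ ≤ δ := by linarith
  have h5 : ‖φ0 z‖ ≤ 1 := by linarith [norm_nonneg (WithLp.sndL 1 ℂ ℂ Y z)]
  have h6 : ‖φ0 z - 1‖ ^ 2 ≤ 2 * δ := by
    have e1 : ‖φ0 z - 1‖ ^ 2 = ‖φ0 z‖ ^ 2 - 2 * (φ0 z).re + 1 := by
      rw [← Complex.normSq_eq_norm_sq, ← Complex.normSq_eq_norm_sq, Complex.normSq_apply,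
        Complex.normSq_apply]
      simp; ring
    have e2 : ‖φ0 z‖ ^ 2 ≤ 1 := pow_le_one₀ (norm_nonneg _) h5
    rw [e1]; linarith
  have h7 : ‖φ0 z - 1‖ ≤ η / 2 := by
    apply le_of_sq_le_sq _ (by positivity)
    nlinarith
  rw [h1]
  have h8 : δ < η / 2 := by
    rcases le_or_gt η 1 with h | h
    · nlinarith
    · rcases le_or_gt η 2 with h' | h'
      · nlinarith
      · linarith
  linarith

/-- the model operator -/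
noncomputable def T0 (Y : Type) [NormedAddCommGroup Y] [NormedSpace ℂ Y] : Sp Y →L[ℂ] Sp Y :=
  (ContinuousLinearMap.inr ℂ ℂ (WithLp 1 (ℂ × Y))).comp
    ((ContinuousLinearMap.fst ℂ ℂ (WithLp 1 (ℂ × Y))).smulRight e0)

theorem T0_apply (x : Sp Y) : T0 Y x = (0, x.1 • e0) := rfl

theorem norm_T0 : ‖T0 Y‖ ≤ 1 := by
  refine ContinuousLinearMap.opNorm_le_bound _ zero_le_one fun x => ?_
  rw [T0_apply, one_mul, Prod.norm_def]
  refine max_le (by simp) ?_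
  rw [norm_smul, norm_e0, mul_one]
  exact norm_fst_le x

/-- The open set of contractions with small third power. -/
theorem open_set (Y : Type) [NormedAddCommGroup Y] [NormedSpace ℂ Y] {ε : ℝ} (hε : 0 < ε) :
    ∃ W : Set (Contr (Sp Y)), @IsOpen _ (wot (Sp Y)) W ∧ W.Nonempty ∧ ∀ T ∈ W, ‖T.1 ^ 3‖ ≤ ε := by
  have hη : 0 < ε / 5 := by positivity
  obtain ⟨δ, hδ, hse⟩ := exposed (Y := Y) hη
  let f1 : Sp Y →L[ℂ] ℂ := ContinuousLinearMap.fst ℂ ℂ _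
  let f2 : Sp Y →L[ℂ] ℂ := (φ0 (Y := Y)).comp (ContinuousLinearMap.snd ℂ ℂ _)
  let O : Set (Sp Y × (Sp Y →L[ℂ] ℂ) → ℂ) :=
    {B | ‖B ((1, 0), f1)‖ < ε / 5} ∩ ({B | 1 - δ / 2 < (B ((1, 0), f2)).re} ∩
      {B | ‖B ((0, e0), f1)‖ < ε / 5})
  have hO : IsOpen O := by
    refine (isOpen_lt (by fun_prop) continuous_const).inter
      ((isOpen_lt continuous_const (by fun_prop)).inter
        (isOpen_lt (by fun_prop) continuous_const))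
  refine ⟨(fun (T : Contr (Sp Y)) (p : Sp Y × (Sp Y →L[ℂ] ℂ)) => p.2 (T.1 p.1)) ⁻¹' O,
    ⟨O, hO, rfl⟩, ⟨⟨T0 Y, norm_T0⟩, ?_⟩, ?_⟩
  · refine ⟨?_, ?_, ?_⟩
    · show ‖f1 (T0 Y (1, 0))‖ < ε / 5
      rw [T0_apply]; simpa [f1] using hη
    · show 1 - δ / 2 < (f2 (T0 Y (1, 0))).re
      rw [T0_apply]
      have : f2 ((0 : ℂ), ((1 : ℂ) • (e0 : WithLp 1 (ℂ × Y)))) = 1 := by
        show φ0 ((1 : ℂ) • (e0 : WithLp 1 (ℂ × Y))) = 1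
        rw [one_smul, φ0_e0]
      rw [this]; simp; linarith
    · show ‖f1 (T0 Y (0, e0))‖ < ε / 5
      rw [T0_apply]; simpa [f1] using hη
  · rintro T hT
    obtain ⟨h1, h2, h3⟩ := hT
    have h1' : ‖(T.1 (1, 0)).1‖ < ε / 5 := h1
    have h2' : 1 - δ / 2 < (φ0 (T.1 (1, 0)).2).re := h2
    have h3' : ‖(T.1 (0, e0)).1‖ < ε / 5 := h3
    have h4 := cube (Z := WithLp 1 (ℂ × Y)) (e0 := e0) (φ0 := φ0) norm_φ0 hη hse T.1 T.2 h1' h2' h3'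
    linarith

/-- powers of a contraction with `‖T ^ 3‖ < 1` tend to zero -/
theorem tends {X : Type} [NormedAddCommGroup X] [NormedSpace ℂ X] (T : X →L[ℂ] X) (hT : ‖T‖ ≤ 1)
    (h3 : ‖T ^ 3‖ ≤ 1 / 2) : Tendsto (fun n : ℕ => ‖T ^ n‖) atTop (𝓝 0) := by
  have hp : ∀ n : ℕ, ‖T ^ n‖ ≤ 1 := by
    intro n
    rcases Nat.eq_zero_or_pos n with rfl | hn
    · rw [pow_zero]; exact ContinuousLinearMap.norm_id_le
    · exact (norm_pow_le' T hn).trans (pow_le_one₀ (norm_nonneg _) hT)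
  have hle : ∀ n : ℕ, ‖T ^ n‖ ≤ (1 / 2 : ℝ) ^ (n / 3) := by
    intro n
    have e1 : T ^ n = (T ^ 3) ^ (n / 3) * T ^ (n % 3) := by
      rw [← pow_mul, ← pow_add, Nat.div_add_mod]
    rw [e1]
    refine (norm_mul_le _ _).trans ?_
    have e2 : ‖(T ^ 3) ^ (n / 3)‖ ≤ (1 / 2 : ℝ) ^ (n / 3) := by
      rcases Nat.eq_zero_or_pos (n / 3) with h | h
      · rw [h, pow_zero, pow_zero]; exact ContinuousLinearMap.norm_id_le
      · exact (norm_pow_le' _ h).trans (pow_le_pow_left₀ (norm_nonneg _) h3 _)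
    calc ‖(T ^ 3) ^ (n / 3)‖ * ‖T ^ (n % 3)‖ ≤ (1 / 2 : ℝ) ^ (n / 3) * 1 := by
          gcongr; exact hp _
      _ = _ := mul_one _
  refine squeeze_zero (fun n => norm_nonneg _) hle ?_
  exact (tendsto_pow_atTop_nhds_zero_of_lt_one (by norm_num) (by norm_num)).comp
    (Nat.tendsto_div_const_atTop (by norm_num))

end Pool.Agent.KS6_18.Stab
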